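import Pool.Agent.W439.TR.Meas
import Pool.Agent.H588R3.BR.Theta4

set_option autoImplicit false

namespace Pool.Agent.W439.TR

open MeasureTheory ProbabilityTheory Pool.Agent.H588R3 List

theorem ki_of_wlaw {P : List (Fin 4) → ℝ} (hP : FC.WLaw P) : KI P := by
  have h : KI (FC.wp (FC.toPM ⟨P, hP⟩ : Measure (ℤ → Fin 4))) := wp_klein (FC.toPM_law ⟨P, hP⟩)
  rwa [FC.wp_toPM] at h

theorem P4_free (a : Fin 4) (Q : List (Fin 3) → ℝ) {w : List (Fin 3)} (h0 : w ≠ [])
    (hw : List.IsChain (· ≠ ·) w) :
    BR.P4 a Q (w.map a.succAbove) =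
      (∑ i ∈ Finset.range w.length, Q (w.eraseIdx i)) / 2 ^ (w.length + 1) := by
  unfold BR.P4
  rw [BR.map_equiv]
  have h1 : BR.SA Q (w.map some) [] = BR.D Q w := by
    have := BR.SA_map Q [] w []
    rw [List.append_nil, List.nil_append] at this
    rw [this]
    rfl
  rw [h1, BR.D_proper Q h0 hw, TC.sdel_eq_sum, List.length_map]

theorem P4_flip (a : Fin 4) {Q : List (Fin 3) → ℝ} (hQ : TC.WLaw Q) (w : List (Fin 3)) :
    BR.P4 a Q (w.map a.succAbove ++ [a]) = BR.P4 a Q (a :: w.map a.succAbove) := by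
  have i1 := BR.P4_inv a hQ w
  have h1 : BR.SA Q (w.map some) [] = BR.D Q w := by
    have := BR.SA_map Q [] w []
    rw [List.append_nil, List.nil_append] at this
    rw [this]
    rfl
  have h2 : BR.SA Q (w.map some ++ [none]) [] = BR.D Q w - Q w := by
    have e := BR.SA_map Q [none] w []
    rw [List.nil_append] at e
    rw [e]
    have h4 : ∀ u : List (Fin 3), BR.FA Q [] [] u = Q u := by
      intro u
      simp only [BR.FA, BR.D_nil, List.append_nil]
      have := hQ.right u
      rw [this]; ring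
    show BR.D (fun z => ∑ k, BR.FA Q [] [] (z ++ [k])) w - BR.FA Q [] [] w = _
    rw [h4]
    congr 1
    congr 1
    funext z
    simp only [h4]
    exact hQ.right z
  have h3 : BR.P4 a Q (w.map a.succAbove ++ [a]) = (BR.D Q w - Q w) / 2 ^ (w.length + 2) := by
    unfold BR.P4
    rw [List.map_append, BR.map_equiv]
    show BR.SA Q (w.map some ++ [finSuccEquiv' a a]) [] / _ = _
    rw [finSuccEquiv'_at, h2]
    simp
  have h4 : BR.P4 a Q (w.map a.succAbove) = BR.D Q w / 2 ^ (w.length + 1) := by
    unfold BR.P4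
    rw [BR.map_equiv, h1, List.length_map]
  rw [h4] at i1
  rw [h3]
  have h5 : (2 : ℝ) ^ (w.length + 1) ≠ 0 := by positivity
  have h6 : (2 : ℝ) ^ (w.length + 2) = 2 * 2 ^ (w.length + 1) := by ring
  rw [h6]
  field_simp
  field_simp at i1
  linarith

/-- pull a colour word without colour 3 back to `Fin 3` -/
def pb : Fin 4 → Fin 3 := ![0, 1, 2, 0]

theorem sa_pb : ∀ b : Fin 4, b ≠ 3 → (3 : Fin 4).succAbove (pb b) = b := by decide

theorem mem_run1 (i : ℕ) : ∀ a : Fin 4, (a = 0 ∨ a = 1) → ∀ b ∈ cw a (List.replicate i 1),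
    b = 0 ∨ b = 1 := by
  induction i with
  | zero =>
    intro a ha b hb
    simp only [List.replicate_zero, cw, List.mem_singleton] at hb
    subst hb; exact ha
  | succ i ih =>
    intro a ha b hb
    rw [List.replicate_succ] at hb
    simp only [cw, List.mem_cons] at hb
    rcases hb with hb | hb
    · subst hb; exact ha
    · refine ih (x4 a 1) ?_ b hb
      rcases ha with rfl | rfl
      · right; decide
      · left; decide

theorem mem_run2 (i : ℕ) : ∀ a : Fin 4, (a = 0 ∨ a = 2) → ∀ b ∈ cw a (List.replicate i 2),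
    b = 0 ∨ b = 2 := by
  induction i with
  | zero =>
    intro a ha b hb
    simp only [List.replicate_zero, cw, List.mem_singleton] at hb
    subst hb; exact ha
  | succ i ih =>
    intro a ha b hb
    rw [List.replicate_succ] at hb
    simp only [cw, List.mem_cons] at hb
    rcases hb with hb | hb
    · subst hb; exact ha
    · refine ih (x4 a 2) ?_ b hb
      rcases ha with rfl | rfl
      · right; decide
      · left; decide

theorem map_pb {l : List (Fin 4)} (h : ∀ b ∈ l, b ≠ 3) : (l.map pb).map (3 : Fin 4).succAbove = l := by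
  rw [List.map_map]
  conv_rhs => rw [← List.map_id l]
  exact List.map_congr_left (fun b hb => sa_pb b (h b hb))

/-- the two-run word splits -/
theorem split_word (i j : ℕ) : ∃ u v : List (Fin 3), (2 : Fin 3) ∉ u ∧ (1 : Fin 3) ∉ v ∧ u ≠ [] ∧
    u.length + v.length = i + j + 1 ∧
    (u ++ v).map (3 : Fin 4).succAbove = cw (fc i) (List.replicate i 1 ++ List.replicate j 2) := by
  have hf : fc i = 0 ∨ fc i = 1 := by
    unfold fc; split_ifs
    · left; rfl
    · right; rfl
  have hU := mem_run1 i (fc i) hf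
  have hU3 : ∀ b ∈ cw (fc i) (List.replicate i 1), b ≠ 3 := by
    intro b hb
    rcases hU b hb with rfl | rfl <;> decide
  have hU2 : (2 : Fin 3) ∉ (cw (fc i) (List.replicate i 1)).map pb := by
    intro h
    obtain ⟨b, hb, hb'⟩ := List.mem_map.1 h
    rcases hU b hb with rfl | rfl
    · exact absurd hb' (by decide)
    · exact absurd hb' (by decide)
  have hne : (cw (fc i) (List.replicate i 1)).map pb ≠ [] := by
    intro h
    have := congrArg List.length h
    rw [List.length_map, cw_length] at this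
    simp at this
  cases j with
  | zero =>
    refine ⟨(cw (fc i) (List.replicate i 1)).map pb, [], hU2, List.not_mem_nil, hne, ?_, ?_⟩
    · rw [List.length_map, cw_length]; simp
    · rw [List.append_nil, map_pb hU3]; simp
  | succ j =>
    have hc : x4 (ec (fc i) (List.replicate i 1)) 2 = 2 := by
      rw [ec_replicate]
      unfold fc
      rcases Nat.mod_two_eq_zero_or_one i with h2 | h2
      · rw [if_pos h2, if_pos h2]; decide
      · rw [if_neg (by omega), if_neg (by omega)]; decide
    have hV := mem_run2 j 2 (Or.inr rfl)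
    have hV3 : ∀ b ∈ cw 2 (List.replicate j 2), b ≠ 3 := by
      intro b hb
      rcases hV b hb with rfl | rfl <;> decide
    have hV1 : (1 : Fin 3) ∉ (cw 2 (List.replicate j 2)).map pb := by
      intro h
      obtain ⟨b, hb, hb'⟩ := List.mem_map.1 h
      rcases hV b hb with rfl | rfl
      · exact absurd hb' (by decide)
      · exact absurd hb' (by decide)
    refine ⟨(cw (fc i) (List.replicate i 1)).map pb, (cw 2 (List.replicate j 2)).map pb,
      hU2, hV1, hne, ?_, ?_⟩
    · rw [List.length_map, List.length_map, cw_length, cw_length]; simp; omega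
    · rw [List.map_append, map_pb hU3, map_pb hV3, List.replicate_succ, cw_append, hc]

variable {Q Q' : List (Fin 3) → ℝ}

theorem two_run_P4 (hQ : TC.WLaw Q) (hQ' : TC.WLaw Q')
    (h : ∀ u v : List (Fin 3), (2 : Fin 3) ∉ u → (1 : Fin 3) ∉ v → Q (u ++ v) = Q' (u ++ v))
    (i j : ℕ) : BR.P4 3 Q (cw 0 (List.replicate i 1 ++ List.replicate j 2)) =
      BR.P4 3 Q' (cw 0 (List.replicate i 1 ++ List.replicate j 2)) := by
  have hK := ki_of_wlaw (BR.P4_law 3 hQ)
  have hK' := ki_of_wlaw (BR.P4_law 3 hQ')
  set s : List (Fin 4) := List.replicate i 1 ++ List.replicate j 2 with hs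
  have e1 : BR.P4 3 Q (cw 0 s) = BR.P4 3 Q (cw (fc i) s) := by
    conv_rhs => rw [cw_eq_map]
    rw [hK]
  have e2 : BR.P4 3 Q' (cw 0 s) = BR.P4 3 Q' (cw (fc i) s) := by
    conv_rhs => rw [cw_eq_map]
    rw [hK']
  rw [e1, e2]
  obtain ⟨u, v, hu, hv, hne, -, huv⟩ := split_word i j
  rw [← hs] at huv
  rw [← huv]
  by_cases hc : List.IsChain (· ≠ ·) (u ++ v)
  · have h0 : u ++ v ≠ [] := by
      intro h; exact hne (List.append_eq_nil_iff.1 h).1
    rw [P4_free 3 Q h0 hc, P4_free 3 Q' h0 hc]
    congr 1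
    refine Finset.sum_congr rfl (fun k _ => ?_)
    rcases Nat.lt_or_ge k u.length with hk | hk
    · rw [List.eraseIdx_append_of_lt_length hk]
      exact h _ _ (fun hm => hu (List.mem_of_mem_eraseIdx hm)) hv
    · rw [List.eraseIdx_append_of_length_le hk]
      exact h _ _ hu (fun hm => hv (List.mem_of_mem_eraseIdx hm))
  · have hp : ¬ FC.Proper ((u ++ v).map (3 : Fin 4).succAbove) := by
      intro hp
      apply hc
      unfold FC.Proper at hp
      rw [List.isChain_map] at hp
      refine hp.imp ?_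
      intro c d hcd h'
      exact hcd (by rw [h'])
    rw [(BR.P4_law 3 hQ).improper _ hp, (BR.P4_law 3 hQ').improper _ hp]

theorem agree_three (hQ : TC.WLaw Q) (hQ' : TC.WLaw Q')
    (h : ∀ u v : List (Fin 3), (2 : Fin 3) ∉ u → (1 : Fin 3) ∉ v → Q (u ++ v) = Q' (u ++ v))
    (w : List (Fin 3)) : Q w = Q' w := by
  have key := agree_all (BR.P4_law 3 hQ) (BR.P4_law 3 hQ') (ki_of_wlaw (BR.P4_law 3 hQ))
    (ki_of_wlaw (BR.P4_law 3 hQ')) (fun i j _ => two_run_P4 hQ hQ' h i j)
  rw [← BR.P4_inv 3 hQ w, ← BR.P4_inv 3 hQ' w, key _ _ le_rfl, key _ _ le_rfl]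

/-- The probability of the word `w` at the sites `0, …, |w| - 1`. -/
noncomputable def wordProb3 (ν : Measure (ℤ → Fin 3)) (w : List (Fin 3)) : ℝ :=
  ν.real {x | ∀ i : Fin w.length, x ((i : ℕ) : ℤ) = w.get i}

theorem wordProb3_eq (ν : Measure (ℤ → Fin 3)) (w : List (Fin 3)) :
    wordProb3 ν w = TC.wp ν w := by
  unfold wordProb3 TC.wp
  congr 1
  ext x
  show (∀ i : Fin w.length, x ((i : ℕ) : ℤ) = w.get i) ↔ TC.win x 0 w.length = w
  constructor
  · intro h
    apply List.ext_getElem
    · rw [TC.win_length]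
    · intro i h1 h2
      rw [TC.win_getElem, zero_add]
      exact h ⟨i, h2⟩
  · intro h i
    have h1 : (i : ℕ) < (TC.win x 0 w.length).length := by rw [TC.win_length]; exact i.2
    have h2 := TC.win_getElem x 0 w.length i h1
    rw [zero_add] at h2
    rw [← h2]
    have : ∀ (l : List (Fin 3)) (hl : (i : ℕ) < l.length), l = w → l[(i : ℕ)] = w.get i := by
      rintro l hl rfl
      rfl
    exact this _ h1 h

theorem three_main {μ ν : Measure (ℤ → Fin 3)} (hμ : TC.IsColoringLaw μ) (hν : TC.IsColoringLaw ν)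
    (h : ∀ u v : List (Fin 3), (2 : Fin 3) ∉ u → (1 : Fin 3) ∉ v →
      wordProb3 μ (u ++ v) = wordProb3 ν (u ++ v)) : μ = ν := by
  have hp := hμ.prob
  have hp' := hν.prob
  simp only [wordProb3_eq] at h
  have key := agree_three (TC.wlaw_of_law hμ) (TC.wlaw_of_law hν) h
  apply TC.ext_win
  intro a w
  rw [TC.win_of_law hμ, TC.win_of_law hν]
  unfold TC.q
  rw [key w]

/-- agreement of the 3-colourings to level `n` gives agreement of the 4-colourings to `n + 1` -/
theorem P4_agree (hQ : TC.WLaw Q) (hQ' : TC.WLaw Q') (n : ℕ)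
    (h : ∀ w : List (Fin 3), w.length ≤ n → Q w = Q' w) :
    ∀ m ≤ n + 1, ∀ k : ℕ, ∀ w : List (Fin 4), w.length = m → w.count 3 = k →
      BR.P4 3 Q w = BR.P4 3 Q' w := by
  have L := BR.P4_law 3 hQ
  have L' := BR.P4_law 3 hQ'
  intro m
  induction m using Nat.strong_induction_on with
  | _ m ihm =>
    intro hm k
    induction k with
    | zero =>
      intro w hw hk
      by_cases hp : FC.Proper w
      · rcases List.eq_nil_or_concat w with h0 | ⟨_, _, h0⟩
        · rw [h0, L.nil, L'.nil]
        · have hne : w ≠ [] := by rw [h0]; simp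
          have h3 : ∀ b ∈ w, b ≠ 3 := by
            intro b hb hb3
            subst hb3
            exact (List.count_eq_zero.1 hk) hb
          have hw3 := map_pb h3
          have hc : List.IsChain (· ≠ ·) (w.map pb) := by
            have hp' := hp
            unfold FC.Proper at hp'
            rw [← hw3, List.isChain_map] at hp'
            refine hp'.imp ?_
            intro c d hcd h'
            exact hcd (by rw [h'])
          have hne' : w.map pb ≠ [] := by simpa using hne
          rw [← hw3, P4_free 3 Q hne' hc, P4_free 3 Q' hne' hc]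
          congr 1
          refine Finset.sum_congr rfl (fun i hi => h _ ?_)
          rw [List.length_eraseIdx_of_lt (Finset.mem_range.1 hi), List.length_map]
          omega
      · rw [L.improper w hp, L'.improper w hp]
    | succ k ihk =>
      intro w hw hk
      have h3 : (3 : Fin 4) ∈ w := by
        by_contra hc
        rw [List.count_eq_zero.2 hc] at hk
        omega
      obtain ⟨x, y, rfl⟩ := List.append_of_mem h3
      have hl : x.length + y.length + 1 = m := by
        rw [← hw]; simp; omega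
      have hk' : x.count 3 + y.count 3 = k := by
        rw [List.count_append, List.count_cons_self] at hk; omega
      have m1 := L.mid x y
      have m2 := L'.mid x y
      have e1 : BR.P4 3 Q x = BR.P4 3 Q' x := ihm x.length (by omega) (by omega) _ x rfl rfl
      have e2 : BR.P4 3 Q y = BR.P4 3 Q' y := ihm y.length (by omega) (by omega) _ y rfl rfl
      have e3 : ∀ b : Fin 4, b ≠ 3 → BR.P4 3 Q (x ++ b :: y) = BR.P4 3 Q' (x ++ b :: y) := by
        intro b hb
        apply ihk
        · simp; omega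
        · rw [List.count_append, List.count_cons_of_ne hb]; exact hk'
      rw [Fin.sum_univ_four, e3 0 (by decide), e3 1 (by decide), e3 2 (by decide), e1, e2] at m1
      rw [Fin.sum_univ_four] at m2
      linarith

theorem agree_le3 (hQ : TC.WLaw Q) (hQ' : TC.WLaw Q') (n : ℕ)
    (h : ∀ w : List (Fin 3), w.length = n → Q w = Q' w) :
    ∀ k : ℕ, ∀ w : List (Fin 3), w.length + k = n → Q w = Q' w := by
  intro k
  induction k with
  | zero => intro w hw; exact h w (by omega)
  | succ k ih =>
    intro w hw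
    rw [← hQ.right w, ← hQ'.right w]
    refine Finset.sum_congr rfl (fun a _ => ih _ ?_)
    simp only [List.length_append, List.length_cons, List.length_nil]
    omega

theorem agree_parity3 (hQ : TC.WLaw Q) (hQ' : TC.WLaw Q') (n : ℕ)
    (h : ∀ w : List (Fin 3), w.length = n → Q w = Q' w) (w : List (Fin 3))
    (hw : w.length = n + 1) :
    Q w - (-1) ^ n * Q w.reverse = Q' w - (-1) ^ n * Q' w.reverse := by
  have h' : ∀ w : List (Fin 3), w.length ≤ n → Q w = Q' w := fun v hv =>
    agree_le3 hQ hQ' n h (n - v.length) v (by omega)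
  have L := BR.P4_law 3 hQ
  have L' := BR.P4_law 3 hQ'
  have hP := P4_agree hQ hQ' n h'
  have key := agree_parity L L' (ki_of_wlaw L) (ki_of_wlaw L') (n + 1)
    (fun v hv => hP (n + 1) le_rfl _ v hv rfl) (3 :: w.map (3 : Fin 4).succAbove)
    (by simp [hw])
  have er : (3 :: w.map (3 : Fin 4).succAbove).reverse =
      w.reverse.map (3 : Fin 4).succAbove ++ [3] := by
    rw [List.reverse_cons, List.map_reverse]
  rw [er, P4_flip 3 hQ, P4_flip 3 hQ'] at key
  have a1 := hP (n + 1) le_rfl _ (w.map (3 : Fin 4).succAbove) (by simp [hw]) rfl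
  have a2 := hP (n + 1) le_rfl _ (w.reverse.map (3 : Fin 4).succAbove) (by simp [hw]) rfl
  have i1 := BR.P4_inv 3 hQ w
  have i2 := BR.P4_inv 3 hQ' w
  have i3 := BR.P4_inv 3 hQ w.reverse
  have i4 := BR.P4_inv 3 hQ' w.reverse
  rw [List.length_reverse] at i3 i4
  rw [← i1, ← i2, ← i3, ← i4, a1, a2]
  rw [pow_succ (-1 : ℝ) n] at key
  linear_combination (-2) * 2 ^ (w.length + 1) * key

theorem three_parity {μ ν : Measure (ℤ → Fin 3)} (hμ : TC.IsColoringLaw μ)
    (hν : TC.IsColoringLaw ν) (n : ℕ)
    (h : ∀ w : List (Fin 3), w.length = n → wordProb3 μ w = wordProb3 ν w)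
    (w : List (Fin 3)) (hw : w.length = n + 1) :
    wordProb3 μ w - (-1) ^ n * wordProb3 μ w.reverse =
      wordProb3 ν w - (-1) ^ n * wordProb3 ν w.reverse := by
  simp only [wordProb3_eq] at h ⊢
  exact agree_parity3 (TC.wlaw_of_law hμ) (TC.wlaw_of_law hν) n h w hw

end Pool.Agent.W439.TR
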