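import Pool.Agent.W439.TR.Three

set_option autoImplicit false

namespace Pool.Agent.W439.TR

open MeasureTheory ProbabilityTheory Pool.Agent.H588R3 List

/-- The two-run word over `Fin 3`. -/
def w3 (i j : ℕ) : List (Fin 3) := (cw (fc i) (List.replicate i 1 ++ List.replicate j 2)).map pb

theorem w3_map (i j : ℕ) : (w3 i j).map (3 : Fin 4).succAbove =
    cw (fc i) (List.replicate i 1 ++ List.replicate j 2) := by
  apply map_pb
  obtain ⟨u, v, -, -, -, -, huv⟩ := split_word i j
  rw [← huv]
  intro b hb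
  obtain ⟨c, -, hc⟩ := List.mem_map.1 hb
  rw [← hc]
  exact Fin.succAbove_ne _ _

theorem w3_length (i j : ℕ) : (w3 i j).length = i + j + 1 := by
  unfold w3
  rw [List.length_map, cw_length]
  simp

variable {d : List (Fin 4) → ℝ} {n : ℕ}

theorem d_cons (R : Rel d n) (c : Fin 4) (s : List (Fin 4)) (hs : s.length + 1 = n) :
    d (3 :: cw c s) = d (cw 0 (x4 3 c :: s)) := by
  rw [← R.klein 3 (x4 3 c :: s) (by simpa using hs)]
  congr 1
  simp only [cw]
  rw [x4_involutive]

theorem d_cons_odd (R : Rel d n) (i j : ℕ) (hi : Odd i) (hn : i + j + 1 = n)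
    (h : d (3 :: cw (fc i) (List.replicate i 1 ++ List.replicate j 2)) = 0) :
    g d i (j + 1) = 0 := by
  rw [d_cons R _ _ (by simp; omega)] at h
  have e : x4 3 (fc i) = 2 := by
    unfold fc
    rw [if_neg (by have := Nat.odd_iff.1 hi; omega)]; decide
  rw [e] at h
  have hm := move_block R i 1 (List.replicate j 2) (by simp; omega)
  have e2 : (List.replicate 1 (2 : Fin 4) ++ (List.replicate i 1 ++ List.replicate j 2)) =
      2 :: (List.replicate i 1 ++ List.replicate j 2) := rfl
  rw [e2, h] at hm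
  have e3 : List.replicate 1 (2 : Fin 4) ++ List.replicate j 2 = List.replicate (j + 1) 2 := rfl
  rw [e3, mul_one, hi.neg_one_pow] at hm
  unfold g
  linarith

theorem d_cons_even (R : Rel d n) (i j : ℕ) (hi : Even i) (hn : i + j + 1 = n)
    (h : d (3 :: cw (fc i) (List.replicate i 1 ++ List.replicate j 2)) = 0) :
    g d (i + 1) j + g d i (j + 1) = 0 := by
  rw [d_cons R _ _ (by simp; omega)] at h
  have e : x4 3 (fc i) = 3 := by
    unfold fc
    rw [if_pos (by have := Nat.even_iff.1 hi; omega)]; decide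
  rw [e] at h
  have hl := left R (List.replicate i 1 ++ List.replicate j 2) (by simp; omega)
  rw [h] at hl
  have hm := move_block R i 1 (List.replicate j 2) (by simp; omega)
  have e2 : (List.replicate 1 (2 : Fin 4) ++ (List.replicate i 1 ++ List.replicate j 2)) =
      2 :: (List.replicate i 1 ++ List.replicate j 2) := rfl
  rw [e2] at hm
  have e3 : List.replicate 1 (2 : Fin 4) ++ List.replicate j 2 = List.replicate (j + 1) 2 := rfl
  rw [e3, mul_one, hi.neg_one_pow, one_mul] at hm
  have e4 : (1 : Fin 4) :: (List.replicate i 1 ++ List.replicate j 2) =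
      List.replicate (i + 1) 1 ++ List.replicate j 2 := rfl
  rw [e4, hm] at hl
  unfold g
  linarith

theorem g_from (R : Rel d n) (h0 : n = 1 → g d 0 1 = 0)
    (H1 : ∀ i j, Odd i → i + j + 1 = n → g d i (j + 1) = 0)
    (H2 : ∀ j, Even j → j + 1 = n → g d 1 j + g d 0 (j + 1) = 0)
    (H3 : ∀ i, Even i → i + 1 = n → g d (i + 1) 0 + g d i 1 = 0) :
    ∀ a b, a + b = n → (Odd b ∨ (b = 0 ∧ Odd a)) → g d a b = 0 := by
  have key : ∀ a b, a + b = n → Even a → 2 ≤ a → Odd b → g d a b = 0 := by
    intro a b hab ha ha2 hb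
    obtain ⟨a', rfl⟩ : ∃ a', a = a' + 1 := ⟨a - 1, by omega⟩
    have ha' : Odd a' := by
      rcases ha with ⟨k, hk⟩
      exact ⟨k - 1, by omega⟩
    rw [← g_odd_even R a' b (by omega) ha' hb]
    exact H1 a' b ha' (by omega)
  intro a b hab hb
  rcases hb with hb | ⟨hb, ha⟩
  · rcases Nat.even_or_odd a with ha | ha
    · rcases Nat.lt_or_ge a 2 with h2 | h2
      · have ha0 : a = 0 := by
          rcases ha with ⟨k, hk⟩; omega
        subst ha0
        rcases Nat.lt_or_ge b 2 with h3 | h3
        · have hb1 : b = 1 := by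
            rcases hb with ⟨k, hk⟩; omega
          subst hb1
          exact h0 (by omega)
        · obtain ⟨c, rfl⟩ : ∃ c, b = c + 2 := ⟨b - 2, by omega⟩
          have hc : Even (c + 1) := by
            rcases hb with ⟨k, hk⟩
            exact ⟨k, by omega⟩
          have e1 := H2 (c + 1) hc (by omega)
          have e2 := H1 1 c odd_one (by omega)
          have e3 : c + 1 + 1 = c + 2 := rfl
          rw [e3] at e1
          linarith
      · exact key a b hab ha h2 hb
    · obtain ⟨c, rfl⟩ : ∃ c, b = c + 1 := ⟨b - 1, by rcases hb with ⟨k, hk⟩; omega⟩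
      exact H1 a c ha (by omega)
  · subst hb
    obtain ⟨c, rfl⟩ : ∃ c, a = c + 1 := ⟨a - 1, by rcases ha with ⟨k, hk⟩; omega⟩
    have hc : Even c := by
      rcases ha with ⟨k, hk⟩
      exact ⟨k, by omega⟩
    have e1 := H3 c hc (by omega)
    rcases Nat.lt_or_ge c 2 with h2 | h2
    · have hc0 : c = 0 := by
        rcases hc with ⟨k, hk⟩; omega
      subst hc0
      have e2 := h0 (by omega)
      linarith
    · have e2 := key c 1 (by omega) hc h2 odd_one
      linarith

variable {Q Q' : List (Fin 3) → ℝ}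

/-- the last step: from words of length `n` to words of length `n + 1` -/
theorem step3 (hQ : TC.WLaw Q) (hQ' : TC.WLaw Q') (n : ℕ)
    (h : ∀ w : List (Fin 3), w.length ≤ n → Q w = Q' w) (h1 : Q [1] = Q' [1])
    (hT : ∀ i j, i + j = n → (Odd i ∨ (i = 0 ∧ Even j) ∨ (j = 0 ∧ Even i)) →
      Q (w3 i j) = Q' (w3 i j))
    (w : List (Fin 3)) (hw : w.length = n + 1) : Q w = Q' w := by
  have L := BR.P4_law 3 hQ
  have L' := BR.P4_law 3 hQ'
  have hP := P4_agree hQ hQ' n h
  have hP' : ∀ v : List (Fin 4), v.length ≤ n + 1 → BR.P4 3 Q v = BR.P4 3 Q' v :=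
    fun v hv => hP v.length hv _ v rfl rfl
  have R := rel_of_agree L L' (ki_of_wlaw L) (ki_of_wlaw L') hP'
  -- for a word of length `n + 1`
  have hiff : ∀ v : List (Fin 3), v.length = n + 1 → (Q v = Q' v ↔
      BR.P4 3 Q (3 :: v.map (3 : Fin 4).succAbove) -
        BR.P4 3 Q' (3 :: v.map (3 : Fin 4).succAbove) = 0) := by
    intro v hv
    have a1 := hP' (v.map (3 : Fin 4).succAbove) (by simp [hv])
    rw [← BR.P4_inv 3 hQ v, ← BR.P4_inv 3 hQ' v, a1]
    have hpos : (2 : ℝ) ^ (v.length + 1) ≠ 0 := by positivity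
    constructor
    · intro e
      have := mul_left_cancel₀ hpos e
      linarith
    · intro e
      have e' : BR.P4 3 Q (3 :: v.map (3 : Fin 4).succAbove) =
        BR.P4 3 Q' (3 :: v.map (3 : Fin 4).succAbove) := by linarith
      rw [e']
  have hd : ∀ i j, i + j = n → (Odd i ∨ (i = 0 ∧ Even j) ∨ (j = 0 ∧ Even i)) →
      BR.P4 3 Q (3 :: cw (fc i) (List.replicate i 1 ++ List.replicate j 2)) -
        BR.P4 3 Q' (3 :: cw (fc i) (List.replicate i 1 ++ List.replicate j 2)) = 0 := by
    intro i j hij hc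
    rw [← w3_map]
    exact (hiff (w3 i j) (by rw [w3_length]; omega)).1 (hT i j hij hc)
  rw [hiff w hw]
  refine vanish_all R (sparse R (g_from R ?_ ?_ ?_ ?_)) _ (by simp [hw])
  · intro hn
    have hn0 : n = 0 := by omega
    subst hn0
    have e := (hiff [1] rfl).1 h1
    have e2 : ([1] : List (Fin 3)).map (3 : Fin 4).succAbove = cw 1 [] := by decide
    rw [e2] at e
    have e3 := d_cons R 1 [] rfl
    have e4 : x4 3 1 = 2 := by decide
    rw [e4] at e3
    unfold g
    have e5 : List.replicate 0 (1 : Fin 4) ++ List.replicate 1 2 = [2] := rfl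
    rw [e5]
    exact e3.symm.trans e
  · intro i j hi hn
    exact d_cons_odd R i j hi hn (hd i j (by omega) (Or.inl hi))
  · intro j hj hn
    exact d_cons_even R 0 j Even.zero (by omega) (hd 0 j (by omega) (Or.inr (Or.inl ⟨rfl, hj⟩)))
  · intro i hi hn
    exact d_cons_even R i 0 hi (by omega) (hd i 0 (by omega) (Or.inr (Or.inr ⟨rfl, hi⟩)))

theorem agree_three2 (hQ : TC.WLaw Q) (hQ' : TC.WLaw Q') (h1 : Q [1] = Q' [1])
    (hT : ∀ i j, (Odd i ∧ Odd j) ∨ (i = 0 ∧ Even j) ∨ (j = 0 ∧ Even i) →
      Q (w3 i j) = Q' (w3 i j))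
    (hr : ((∀ w, Q w.reverse = Q w) ∧ (∀ w, Q' w.reverse = Q' w)) ∨
      (∀ i j, Odd i → Even j → Q (w3 i j) = Q' (w3 i j))) :
    ∀ n : ℕ, ∀ w : List (Fin 3), w.length ≤ n → Q w = Q' w := by
  intro n
  induction n with
  | zero =>
    intro w hw
    have : w = [] := List.length_eq_zero_iff.1 (by omega)
    rw [this, hQ.nil, hQ'.nil]
  | succ n ih =>
    intro w hw
    rcases Nat.lt_or_ge w.length (n + 1) with h2 | h2
    · exact ih w (by omega)
    · have hw' : w.length = n + 1 := by omega
      rcases Nat.even_or_odd n with hn | hn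
      · -- `n` even: `i + j` even
        refine step3 hQ hQ' n ih h1 ?_ w hw'
        intro i j hij hc
        rcases hc with hc | hc | hc
        · refine hT i j (Or.inl ⟨hc, ?_⟩)
          rcases Nat.even_or_odd j with hj | hj
          · exfalso
            have := hc.add_even hj
            rw [hij] at this
            exact (Nat.not_odd_iff_even.2 hn) this
          · exact hj
        · exact hT i j (Or.inr (Or.inl hc))
        · exact hT i j (Or.inr (Or.inr hc))
      · rcases hr with ⟨hr, hr'⟩ | hr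
        · have hp := agree_parity3 hQ hQ' n (fun v hv => ih v (by omega)) w hw'
          rw [hn.neg_one_pow, hr, hr'] at hp
          linarith
        · refine step3 hQ hQ' n ih h1 ?_ w hw'
          intro i j hij hc
          rcases hc with hc | hc | hc
          · rcases Nat.even_or_odd j with hj | hj
            · exact hr i j hc hj
            · exact hT i j (Or.inl ⟨hc, hj⟩)
          · exact hT i j (Or.inr (Or.inl hc))
          · exact hT i j (Or.inr (Or.inr hc))

/-- The event that the colours 0 and 1 alternate on the sites `-i, …, 0` and the colours 0 and 2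
alternate on the sites `0, …, j`, with colour 0 at site 0. -/
def TwoRun3 (i j : ℕ) : Set (ℤ → Fin 3) :=
  {x | (∀ k : ℕ, k ≤ i → x (-(k : ℤ)) = if k % 2 = 0 then 0 else 1) ∧
    ∀ k : ℕ, k ≤ j → x (k : ℤ) = if k % 2 = 0 then 0 else 2}

theorem twoRun3_eq (i j : ℕ) : TwoRun3 i j =
    {x | TC.win x (-(i : ℤ)) (w3 i j).length = w3 i j} := by
  ext x
  have h1 : x ∈ TwoRun3 i j ↔ (fun n => (3 : Fin 4).succAbove (x n)) ∈ TwoRun i j := by
    unfold TwoRun3 TwoRun
    simp only [Set.mem_setOf_eq]
    have inj : Function.Injective (3 : Fin 4).succAbove := Fin.succAbove_right_injective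
    have s0 : (3 : Fin 4).succAbove 0 = 0 := by decide
    have s1 : (3 : Fin 4).succAbove 1 = 1 := by decide
    have s2 : (3 : Fin 4).succAbove 2 = 2 := by decide
    have p1 : ∀ (c : Fin 3) (k : ℕ), c = (if k % 2 = 0 then 0 else 1) ↔
        (3 : Fin 4).succAbove c = (if k % 2 = 0 then 0 else 1) := by
      intro c k
      split_ifs
      · conv_rhs => rw [← s0]
        exact inj.eq_iff.symm
      · conv_rhs => rw [← s1]
        exact inj.eq_iff.symm
    have p2 : ∀ (c : Fin 3) (k : ℕ), c = (if k % 2 = 0 then 0 else 2) ↔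
        (3 : Fin 4).succAbove c = (if k % 2 = 0 then 0 else 2) := by
      intro c k
      split_ifs
      · conv_rhs => rw [← s0]
        exact inj.eq_iff.symm
      · conv_rhs => rw [← s2]
        exact inj.eq_iff.symm
    simp only [p1, p2]
  rw [h1, twoRun_eq, ← w3_map, Set.mem_setOf_eq, Set.mem_setOf_eq, List.length_map]
  have h2 : FC.win (fun n => (3 : Fin 4).succAbove (x n)) (-(i : ℤ)) (w3 i j).length =
      (TC.win x (-(i : ℤ)) (w3 i j).length).map (3 : Fin 4).succAbove := by
    unfold FC.win TC.win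
    rw [List.map_map]
    rfl
  rw [h2]
  exact (List.map_injective_iff.2 Fin.succAbove_right_injective).eq_iff

theorem one_eq : {x : ℤ → Fin 3 | x 0 = 1} = {x | TC.win x 0 ([1] : List (Fin 3)).length = [1]} := by
  ext x
  simp [TC.win]

theorem win_reverse (x : ℤ → Fin 3) (a b : ℤ) (n : ℕ) (h : a + b + n = 1) :
    TC.win (fun k => x (-k)) a n = (TC.win x b n).reverse := by
  apply List.ext_getElem
  · rw [TC.win_length, List.length_reverse, TC.win_length]
  · intro k h1 h2
    rw [TC.win_getElem, List.getElem_reverse, TC.win_getElem]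
    congr 1
    rw [TC.win_length] at h1 ⊢
    rw [Nat.cast_sub (by omega), Nat.cast_sub (by omega)]
    push_cast
    linarith

theorem wp_reverse {μ : Measure (ℤ → Fin 3)} (hμ : TC.IsColoringLaw μ)
    (hr : Measure.map (fun x : ℤ → Fin 3 => fun n : ℤ => x (-n)) μ = μ) (w : List (Fin 3)) :
    TC.wp μ w.reverse = TC.wp μ w := by
  have hp := hμ.prob
  rw [← TC.wp_real hμ 0 w.reverse, ← TC.wp_real hμ (1 - (w.length : ℤ)) w]
  conv_lhs => rw [← hr]
  have hm : Measurable (fun x : ℤ → Fin 3 => fun n : ℤ => x (-n)) :=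
    measurable_pi_lambda _ (fun n => measurable_pi_apply (-n))
  have hms : MeasurableSet {x : ℤ → Fin 3 | TC.win x 0 w.reverse.length = w.reverse} :=
    TC.measurableSet_win 0 _ _
  rw [measureReal_def, Measure.map_apply hm hms, ← measureReal_def]
  congr 1
  ext x
  show TC.win (fun n => x (-n)) 0 w.reverse.length = w.reverse ↔ _
  rw [List.length_reverse, win_reverse x 0 (1 - (w.length : ℤ)) w.length (by ring)]
  exact List.reverse_injective.eq_iff

theorem three_main2 {μ ν : Measure (ℤ → Fin 3)} (hμ : TC.IsColoringLaw μ)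
    (hν : TC.IsColoringLaw ν)
    (h1 : μ {x | x 0 = 1} = ν {x | x 0 = 1})
    (hT : ∀ i j, (Odd i ∧ Odd j) ∨ (i = 0 ∧ Even j) ∨ (j = 0 ∧ Even i) →
      μ (TwoRun3 i j) = ν (TwoRun3 i j))
    (hr : (Measure.map (fun x : ℤ → Fin 3 => fun n : ℤ => x (-n)) μ = μ ∧
        Measure.map (fun x : ℤ → Fin 3 => fun n : ℤ => x (-n)) ν = ν) ∨
      (∀ i j, Odd i → Even j → μ (TwoRun3 i j) = ν (TwoRun3 i j))) : μ = ν := by
  have hp := hμ.prob
  have hp' := hν.prob
  have e : ∀ {μ : Measure (ℤ → Fin 3)}, TC.IsColoringLaw μ → ∀ i j,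
      μ.real (TwoRun3 i j) = TC.wp μ (w3 i j) := by
    intro μ hμ i j
    rw [twoRun3_eq, TC.wp_real hμ]
  have key := agree_three2 (TC.wlaw_of_law hμ) (TC.wlaw_of_law hν)
    (by
      unfold TC.wp
      rw [← one_eq, measureReal_def, measureReal_def, h1])
    (fun i j hij => by
      rw [← e hμ, ← e hν, measureReal_def, measureReal_def, hT i j hij])
    (by
      rcases hr with ⟨hr, hr'⟩ | hr
      · exact Or.inl ⟨wp_reverse hμ hr, wp_reverse hν hr'⟩
      · right
        intro i j hi hj
        rw [← e hμ, ← e hν, measureReal_def, measureReal_def, hr i j hi hj])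
  apply TC.ext_win
  intro a w
  rw [TC.win_of_law hμ, TC.win_of_law hν]
  unfold TC.q
  rw [key w.length w le_rfl]

end Pool.Agent.W439.TR
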