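import Pool.Agent.W439.TR.Meas

set_option autoImplicit false

namespace Pool.Agent.W439.TR

open MeasureTheory ProbabilityTheory Pool.Agent.H588R3.FC

theorem agree_all_refl {P P' : List (Fin 4) → ℝ} (hP : WLaw P) (hP' : WLaw P') (hK : KI P)
    (hK' : KI P') (hr : ∀ w, P w.reverse = P w) (hr' : ∀ w, P' w.reverse = P' w)
    (h : ∀ i j : ℕ, ((Even i ∧ Odd j) ∨ (j = 0 ∧ Odd i)) →
      P (cw 0 (List.replicate i 1 ++ List.replicate j 2)) =
        P' (cw 0 (List.replicate i 1 ++ List.replicate j 2))) :
    ∀ n : ℕ, ∀ w : List (Fin 4), w.length ≤ n → P w = P' w := by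
  intro n
  induction n with
  | zero =>
    intro w hw
    have : w = [] := List.length_eq_zero_iff.1 (by omega)
    rw [this, hP.nil, hP'.nil]
  | succ n ih =>
    intro w hw
    rcases Nat.lt_or_ge w.length (n + 1) with h1 | h1
    · exact ih w (by omega)
    · have R := rel_of_agree hP hP' hK hK' ih
      rcases Nat.even_or_odd n with hn | hn
      · have h2 : (P w - P' w) + (-1) ^ n * (P w.reverse - P' w.reverse) = 0 :=
          parity R w (by omega)
        rw [hn.neg_one_pow, hr, hr'] at h2
        linarith
      · have := vanish_all R (sparse R (fun a b hab hc => by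
          show P (cw 0 (List.replicate a 1 ++ List.replicate b 2)) -
            P' (cw 0 (List.replicate a 1 ++ List.replicate b 2)) = 0
          have : (Even a ∧ Odd b) ∨ (b = 0 ∧ Odd a) := by
            rcases hc with hc | hc
            · left
              refine ⟨?_, hc⟩
              rcases Nat.even_or_odd a with ha | ha
              · exact ha
              · exfalso
                have := ha.add_odd hc
                rw [hab] at this
                exact (Nat.not_even_iff_odd.2 hn) this
            · exact Or.inr hc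
          rw [h a b this, sub_self])) w (by omega)
        have h3 : P w - P' w = 0 := this
        linarith

theorem win_neg (x : ℤ → Fin 4) (n : ℕ) :
    win (fun k => x (-k)) 0 n = (win x (-((n : ℤ) - 1)) n).reverse := by
  apply List.ext_getElem
  · rw [win_length, List.length_reverse, win_length]
  · intro k h1 h2
    rw [win_length] at h1
    rw [win_getElem, List.getElem_reverse, win_getElem]
    congr 1
    rw [win_length]
    push_cast [Nat.cast_sub (show k ≤ n - 1 by omega), Nat.cast_sub (show 1 ≤ n by omega)]
    ring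

theorem wp_refl {μ : Measure (ℤ → Fin 4)} (hμ : IsColoringLaw μ)
    (hr : Measure.map (fun x : ℤ → Fin 4 => fun n : ℤ => x (-n)) μ = μ) (w : List (Fin 4)) :
    wp μ w.reverse = wp μ w := by
  have hm : Measurable (fun x : ℤ → Fin 4 => fun n : ℤ => x (-n)) :=
    measurable_pi_lambda _ (fun n => measurable_pi_apply (-n))
  rw [← wp_real hμ (-((w.length : ℤ) - 1)) w]
  unfold wp
  rw [List.length_reverse]
  conv_lhs => rw [← hr]
  rw [measureReal_def, Measure.map_apply hm (measurableSet_win 0 w.length w.reverse),
    ← measureReal_def]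
  congr 1
  ext x
  show win (fun n => x (-n)) 0 w.length = w.reverse ↔ win x (-((w.length : ℤ) - 1)) w.length = w
  rw [win_neg, List.reverse_inj]

theorem main_refl {μ ν : Measure (ℤ → Fin 4)} (hμ : IsColoringLaw μ) (hν : IsColoringLaw ν)
    (hr : Measure.map (fun x : ℤ → Fin 4 => fun n : ℤ => x (-n)) μ = μ)
    (hr' : Measure.map (fun x : ℤ → Fin 4 => fun n : ℤ => x (-n)) ν = ν)
    (h : ∀ i j : ℕ, ((Even i ∧ Odd j) ∨ (j = 0 ∧ Odd i)) → μ (TwoRun i j) = ν (TwoRun i j)) :
    μ = ν := by
  have hp := hμ.prob
  have hp' := hν.prob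
  have key := agree_all_refl (wlaw_of_law hμ) (wlaw_of_law hν) (wp_klein hμ) (wp_klein hν)
    (wp_refl hμ hr) (wp_refl hν hr')
    (fun i j hij => by
      rw [← twoRun_prob hμ, ← twoRun_prob hν, measureReal_def, measureReal_def, h i j hij])
  apply ext_win
  intro a w
  rw [win_of_law hμ, win_of_law hν]
  unfold q
  rw [key w.length w le_rfl]

end Pool.Agent.W439.TR
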