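import Mathlib
import Pool.Agent.H588R3.FC.Word

set_option autoImplicit false

namespace Pool.Agent.W439.TR

open Pool.Agent.H588R3.FC List

/-- The Klein four-group law on `Fin 4`. -/
def x4 (a b : Fin 4) : Fin 4 :=
  ![![0, 1, 2, 3], ![1, 0, 3, 2], ![2, 3, 0, 1], ![3, 2, 1, 0]] a b

theorem x4_zero (a : Fin 4) : x4 a 0 = a := by revert a; decide
theorem zero_x4 (a : Fin 4) : x4 0 a = a := by revert a; decide
theorem x4_assoc (a b c : Fin 4) : x4 (x4 a b) c = x4 a (x4 b c) := by revert a b c; decide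
theorem x4_comm (a b : Fin 4) : x4 a b = x4 b a := by revert a b; decide
theorem x4_self (a : Fin 4) : x4 a a = 0 := by revert a; decide

/-- The colour word with first colour `a` and steps `s`. -/
def cw : Fin 4 → List (Fin 4) → List (Fin 4)
  | a, [] => [a]
  | a, t :: s => a :: cw (x4 a t) s

/-- The last colour. -/
def ec (a : Fin 4) (s : List (Fin 4)) : Fin 4 := s.foldl x4 a

theorem cw_length (s : List (Fin 4)) : ∀ a, (cw a s).length = s.length + 1 := by
  induction s with
  | nil => intro a; rfl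
  | cons t s ih => intro a; simp [cw, ih]

theorem cw_head (a : Fin 4) (s : List (Fin 4)) : ∃ l, cw a s = a :: l := by
  cases s with
  | nil => exact ⟨[], rfl⟩
  | cons t s => exact ⟨_, rfl⟩

theorem cw_last (s : List (Fin 4)) : ∀ a, ∃ l, cw a s = l ++ [ec a s] := by
  induction s with
  | nil => intro a; exact ⟨[], rfl⟩
  | cons t s ih =>
    intro a
    obtain ⟨l, hl⟩ := ih (x4 a t)
    exact ⟨a :: l, by simp [cw, hl, ec]⟩

theorem cw_append (u : List (Fin 4)) : ∀ (a t : Fin 4) (v : List (Fin 4)),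
    cw a (u ++ t :: v) = cw a u ++ cw (x4 (ec a u) t) v := by
  induction u with
  | nil => intro a t v; rfl
  | cons r u ih => intro a t v; simp [cw, ih, ec]

theorem cw_snoc (u : List (Fin 4)) (a t : Fin 4) :
    cw a (u ++ [t]) = cw a u ++ [x4 (ec a u) t] := by
  rw [cw_append]; rfl

theorem cw_map (s : List (Fin 4)) : ∀ a b, cw (x4 a b) s = (cw b s).map (x4 a) := by
  induction s with
  | nil => intro a b; rfl
  | cons t s ih => intro a b; simp only [cw, List.map_cons]; rw [x4_assoc, ih]

theorem cw_eq_map (a : Fin 4) (s : List (Fin 4)) : cw a s = (cw 0 s).map (x4 a) := by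
  have := cw_map s a 0
  rwa [x4_zero] at this

theorem ec_cons (a t : Fin 4) (s : List (Fin 4)) : ec a (t :: s) = ec (x4 a t) s := rfl

theorem ec_snoc (a t : Fin 4) (s : List (Fin 4)) : ec a (s ++ [t]) = x4 (ec a s) t := by
  unfold ec; simp

theorem cw_reverse (s : List (Fin 4)) : ∀ a, (cw a s).reverse = cw (ec a s) s.reverse := by
  induction s with
  | nil => intro a; rfl
  | cons t s ih =>
    intro a
    simp only [cw, List.reverse_cons]
    rw [ih, cw_snoc, ec_cons]
    congr 2
    have h : ∀ (s : List (Fin 4)) (b : Fin 4), ec (ec b s) s.reverse = b := by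
      intro s
      induction s with
      | nil => intro b; rfl
      | cons r s ih => intro b; rw [ec_cons, List.reverse_cons, ec_snoc, ih, x4_assoc, x4_self, x4_zero]
    rw [h, x4_assoc, x4_self, x4_zero]

theorem cw_improper_zero (s : List (Fin 4)) (h : (0 : Fin 4) ∈ s) : ∀ a, ¬ Proper (cw a s) := by
  induction s with
  | nil => simp at h
  | cons t s ih =>
    intro a
    rcases List.mem_cons.1 h with h | h
    · subst h
      obtain ⟨l, hl⟩ := cw_head (x4 a 0) s
      simp only [cw]
      rw [hl, x4_zero]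
      exact not_proper_double [] l a
    · simp only [cw]
      exact not_proper_right (x := [a]) (ih h _)

/-- The linear relations satisfied by the difference of two laws at the first length where they
may differ. -/
structure Rel (d : List (Fin 4) → ℝ) (n : ℕ) : Prop where
  improper : ∀ w, ¬ Proper w → d w = 0
  mid : ∀ x y, x.length + y.length = n → ∑ a, d (x ++ a :: y) = 0
  klein : ∀ a s, s.length = n → d (cw a s) = d (cw 0 s)

variable {d : List (Fin 4) → ℝ} {n : ℕ}

theorem four_sum (f : Fin 4 → ℝ) (p : Fin 4) :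
    ∑ a, f a = f p + f (x4 p 1) + f (x4 p 2) + f (x4 p 3) := by
  rw [Fin.sum_univ_four]
  fin_cases p <;> simp [x4] <;> ring

theorem mid_zero (R : Rel d n) (l : List (Fin 4)) (p : Fin 4) (y : List (Fin 4)) :
    d ((l ++ [p]) ++ p :: y) = 0 := by
  apply R.improper
  rw [List.append_assoc, List.singleton_append]
  exact not_proper_double l y p

theorem swap (R : Rel d n) (u v : List (Fin 4)) (i j : Fin 4) (hn : u.length + v.length + 2 = n)
    (hi : i ≠ 0) (hj : j ≠ 0) (hij : i ≠ j) :
    d (cw 0 (u ++ i :: j :: v)) = - d (cw 0 (u ++ j :: i :: v)) := by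
  set p := ec 0 u with hp
  obtain ⟨l, hl⟩ := cw_last u 0
  rw [← hp] at hl
  set c := x4 (x4 p i) j with hc
  obtain ⟨l', hl'⟩ := cw_head c v
  have h1 : cw 0 (u ++ i :: j :: v) = cw 0 u ++ x4 p i :: cw c v := by rw [cw_append]; rfl
  have h2 : cw 0 (u ++ j :: i :: v) = cw 0 u ++ x4 p j :: cw c v := by
    have : x4 (x4 p j) i = c := by rw [hc, x4_assoc, x4_assoc, x4_comm i j]
    rw [cw_append]
    show cw 0 u ++ x4 p j :: cw (x4 (x4 p j) i) v = _
    rw [this]
  have h3 := R.mid (cw 0 u) (cw c v) (by rw [cw_length, cw_length]; omega)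
  rw [four_sum _ p] at h3
  have h4 : d (cw 0 u ++ p :: cw c v) = 0 := by rw [hl]; exact mid_zero R _ _ _
  have h5 : d (cw 0 u ++ c :: cw c v) = 0 := by
    rw [hl']
    exact R.improper _ (not_proper_double _ _ _)
  rw [h1, h2]
  rw [h4] at h3
  have key : ∀ i j : Fin 4, i ≠ 0 → j ≠ 0 → i ≠ j → ∀ f : Fin 4 → ℝ, f (x4 (x4 p i) j) = 0 →
      0 + f (x4 p 1) + f (x4 p 2) + f (x4 p 3) = 0 → f (x4 p i) = - f (x4 p j) := by
    intro i j hi hj hij f hf hs
    have e : x4 (x4 p i) j = x4 p (x4 i j) := x4_assoc _ _ _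
    rw [e] at hf
    fin_cases i <;> fin_cases j <;> simp [x4] at hi hj hij hf hs ⊢ <;>
      first
        | (exact absurd rfl hi)
        | skip
    all_goals (simp only [x4] at *; linarith)
  exact key i j hi hj hij (fun b => d (cw 0 u ++ b :: cw c v)) h5 h3

theorem right (R : Rel d n) (u : List (Fin 4)) (hn : u.length + 1 = n) :
    d (cw 0 (u ++ [1])) + d (cw 0 (u ++ [2])) + d (cw 0 (u ++ [3])) = 0 := by
  set p := ec 0 u with hp
  obtain ⟨l, hl⟩ := cw_last u 0
  rw [← hp] at hl
  have h3 := R.mid (cw 0 u) [] (by rw [cw_length]; simpa using hn)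
  rw [four_sum _ p] at h3
  have h4 : d (cw 0 u ++ p :: []) = 0 := by rw [hl]; exact mid_zero R _ _ _
  rw [h4] at h3
  rw [cw_snoc, cw_snoc, cw_snoc, ← hp]
  linarith

theorem left (R : Rel d n) (u : List (Fin 4)) (hn : u.length + 1 = n) :
    d (cw 0 (1 :: u)) + d (cw 0 (2 :: u)) + d (cw 0 (3 :: u)) = 0 := by
  have h3 := R.mid [] (cw 0 u) (by rw [cw_length]; simpa using hn)
  rw [four_sum _ 0] at h3
  obtain ⟨l', hl'⟩ := cw_head 0 u
  have h4 : d ([] ++ 0 :: cw 0 u) = 0 := by
    rw [hl']; exact R.improper _ (not_proper_double _ _ _)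
  have h5 : ∀ t : Fin 4, d ([] ++ t :: cw 0 u) = d (cw 0 (t :: u)) := by
    intro t
    rw [← R.klein t (t :: u) (by simpa using hn)]
    simp only [cw, List.nil_append, x4_self]
  rw [h4, zero_x4, zero_x4, zero_x4, h5, h5, h5] at h3
  linarith

end Pool.Agent.W439.TR
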