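import Pool.Agent.W439.TR.Word2
import Pool.Agent.H588R3.FC.Law
import Pool.Agent.H239R3.KCe

set_option autoImplicit false

namespace Pool.Agent.W439.TR

open MeasureTheory ProbabilityTheory Pool.Agent.H588R3.FC

theorem x4_involutive (a b : Fin 4) : x4 a (x4 a b) = b := by
  rw [← x4_assoc, x4_self, zero_x4]

/-- translation by `a` -/
def tr (a : Fin 4) : Equiv.Perm (Fin 4) := ⟨x4 a, x4 a, x4_involutive a, x4_involutive a⟩

theorem tr_v4 (a : Fin 4) (h : a ≠ 0) : Pool.Agent.H239R3.KC.V4 (tr a) := by
  refine ⟨?_, fun b => x4_involutive a b⟩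
  intro b hb
  apply h
  have : x4 a b = b := hb
  calc a = x4 (x4 a b) b := by rw [x4_assoc, x4_self, x4_zero]
    _ = 0 := by rw [this, x4_self]

theorem win_map (σ : Fin 4 → Fin 4) (x : ℤ → Fin 4) (a : ℤ) (n : ℕ) :
    win (fun k => σ (x k)) a n = (win x a n).map σ := by
  unfold win
  rw [List.map_map]
  rfl

theorem wp_klein {μ : Measure (ℤ → Fin 4)} (hμ : IsColoringLaw μ) : KI (wp μ) := by
  intro a w
  by_cases ha : a = 0
  · subst ha
    have : x4 0 = id := by funext b; exact zero_x4 b
    rw [this, List.map_id]
  · have hp := hμ.prob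
    have hk := Pool.Agent.H239R3.KC.klein hμ.stationary hμ.coloring hμ.dependence (tr a) (tr_v4 a ha)
    unfold wp
    rw [List.length_map]
    conv_lhs => rw [← hk]
    have hm : Measurable (fun x : ℤ → Fin 4 => fun n : ℤ => (tr a) (x n)) :=
      measurable_pi_lambda _ (fun n => (measurable_of_countable (tr a)).comp (measurable_pi_apply n))
    have hms : MeasurableSet {x : ℤ → Fin 4 | win x 0 w.length = w.map (x4 a)} := by
      have := measurableSet_win 0 w.length (w.map (x4 a))
      exact this
    rw [measureReal_def, Measure.map_apply hm hms, ← measureReal_def]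
    congr 1
    ext x
    show win (fun n => x4 a (x n)) 0 w.length = w.map (x4 a) ↔ win x 0 w.length = w
    rw [win_map]
    exact (List.map_injective_iff.2 (tr a).injective).eq_iff

/-- The probability of the word `w` at the sites `0, …, |w| - 1`. -/
noncomputable def wordProb (μ : Measure (ℤ → Fin 4)) (w : List (Fin 4)) : ℝ :=
  μ.real {x | ∀ i : Fin w.length, x ((i : ℕ) : ℤ) = w.get i}

theorem wordProb_eq (μ : Measure (ℤ → Fin 4)) (w : List (Fin 4)) : wordProb μ w = wp μ w := by
  unfold wordProb wp
  congr 1
  ext x
  show (∀ i : Fin w.length, x ((i : ℕ) : ℤ) = w.get i) ↔ win x 0 w.length = w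
  constructor
  · intro h
    apply List.ext_getElem
    · rw [win_length]
    · intro i h1 h2
      rw [win_getElem, zero_add]
      exact h ⟨i, h2⟩
  · intro h i
    have h1 : (i : ℕ) < (win x 0 w.length).length := by rw [win_length]; exact i.2
    have h2 := win_getElem x 0 w.length i h1
    rw [zero_add] at h2
    rw [← h2]
    have : ∀ (l : List (Fin 4)) (hl : (i : ℕ) < l.length), l = w → l[(i : ℕ)] = w.get i := by
      rintro l hl rfl
      rfl
    exact this _ h1 h

theorem cw_getElem (s : List (Fin 4)) : ∀ (a : Fin 4) (k : ℕ) (h : k < (cw a s).length),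
    (cw a s)[k] = ec a (s.take k) := by
  induction s with
  | nil =>
    intro a k h
    have : k = 0 := by simp [cw] at h; omega
    subst this
    rfl
  | cons t s ih =>
    intro a k h
    cases k with
    | zero => rfl
    | succ k =>
      simp only [cw, List.getElem_cons_succ, List.take_succ_cons]
      rw [ih]
      rfl

theorem ec_append (a : Fin 4) (u v : List (Fin 4)) : ec a (u ++ v) = ec (ec a u) v := by
  unfold ec; rw [List.foldl_append]

theorem ec_replicate (t : Fin 4) (k : ℕ) : ∀ a, ec a (List.replicate k t) =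
    if k % 2 = 0 then a else x4 a t := by
  induction k with
  | zero => intro a; rfl
  | succ k ih =>
    intro a
    rw [List.replicate_succ, ec_cons, ih]
    rcases Nat.mod_two_eq_zero_or_one k with h | h
    · rw [if_pos h, if_neg (by omega)]
    · rw [if_neg (by omega), if_pos (by omega), x4_assoc, x4_self, x4_zero]

/-- The event that the colouring shows `… 1 0 1 0` on the sites `-i, …, 0` and `0 2 0 2 …` on the
sites `0, …, j`. -/
def TwoRun (i j : ℕ) : Set (ℤ → Fin 4) :=
  {x | (∀ k : ℕ, k ≤ i → x (-(k : ℤ)) = if k % 2 = 0 then 0 else 1) ∧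
    ∀ k : ℕ, k ≤ j → x (k : ℤ) = if k % 2 = 0 then 0 else 2}

/-- first colour of the two-run word -/
def fc (i : ℕ) : Fin 4 := if i % 2 = 0 then 0 else 1

theorem twoRun_eq (i j : ℕ) : TwoRun i j =
    {x | win x (-(i : ℤ)) (cw (fc i) (List.replicate i 1 ++ List.replicate j 2)).length =
      cw (fc i) (List.replicate i 1 ++ List.replicate j 2)} := by
  set s : List (Fin 4) := List.replicate i 1 ++ List.replicate j 2 with hs
  have hl : (cw (fc i) s).length = i + j + 1 := by rw [cw_length, hs]; simp
  have hA : ∀ k, k ≤ i → ec (fc i) (s.take k) = if (i - k) % 2 = 0 then 0 else 1 := by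
    intro k hk
    have : s.take k = List.replicate k 1 := by
      rw [hs, List.take_append_of_le_length (by simpa using hk), List.take_replicate, min_eq_left hk]
    rw [this, ec_replicate]
    unfold fc
    rcases Nat.mod_two_eq_zero_or_one k with h1 | h1 <;>
      rcases Nat.mod_two_eq_zero_or_one i with h2 | h2
    · rw [if_pos h1, if_pos h2, if_pos (by omega)]
    · rw [if_pos h1, if_neg (by omega), if_neg (by omega)]
    · rw [if_neg (by omega), if_pos h2, if_neg (by omega)]; decide
    · rw [if_neg (by omega), if_neg (by omega), if_pos (by omega)]; decide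
  have hB : ∀ k, k ≤ j → ec (fc i) (s.take (i + k)) = if k % 2 = 0 then 0 else 2 := by
    intro k hk
    have : s.take (i + k) = List.replicate i 1 ++ List.replicate k 2 := by
      rw [hs, List.take_append, List.length_replicate, List.take_replicate, List.take_replicate]
      congr 2 <;> omega
    rw [this, ec_append, ec_replicate, ec_replicate]
    have h0 : (if i % 2 = 0 then fc i else x4 (fc i) 1) = 0 := by
      unfold fc
      rcases Nat.mod_two_eq_zero_or_one i with h2 | h2
      · rw [if_pos h2, if_pos h2]
      · rw [if_neg (by omega), if_neg (by omega)]; decide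
    rw [h0, zero_x4]
  ext x
  rw [Set.mem_setOf_eq]
  constructor
  · rintro ⟨h1, h2⟩
    apply List.ext_getElem
    · rw [win_length]
    · intro k hk1 hk2
      rw [win_getElem, cw_getElem]
      rw [hl] at hk2
      rcases Nat.lt_or_ge k i with h | h
      · rw [hA k h.le, ← h1 (i - k) (by omega)]
        congr 1
        push_cast [Nat.cast_sub h.le]
        ring
      · obtain ⟨m, rfl⟩ := Nat.exists_eq_add_of_le h
        rw [hB m (by omega), ← h2 m (by omega)]
        congr 1
        push_cast
        ring
  · intro h
    have hget : ∀ k, k < i + j + 1 → x (-(i : ℤ) + k) = ec (fc i) (s.take k) := by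
      intro k hk
      have hk1 : k < (win x (-(i : ℤ)) (cw (fc i) s).length).length := by rw [win_length, hl]; exact hk
      have h3 := win_getElem x (-(i : ℤ)) (cw (fc i) s).length k hk1
      rw [← h3, ← cw_getElem s (fc i) k (by rw [hl]; exact hk)]
      have : ∀ (l : List (Fin 4)) (hl' : k < l.length), l = cw (fc i) s →
          l[k] = (cw (fc i) s)[k]'(by rw [hl]; exact hk) := by
        rintro l hl' rfl
        rfl
      exact this _ hk1 h
    constructor
    · intro k hk
      have := hget (i - k) (by omega)
      rw [hA (i - k) (by omega)] at this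
      have e : -(i : ℤ) + ((i - k : ℕ) : ℤ) = -(k : ℤ) := by
        push_cast [Nat.cast_sub hk]; ring
      rw [e] at this
      rw [this]
      have e2 : i - (i - k) = k := by omega
      rw [e2]
    · intro k hk
      have := hget (i + k) (by omega)
      rw [hB k hk] at this
      have e : -(i : ℤ) + ((i + k : ℕ) : ℤ) = (k : ℤ) := by push_cast; ring
      rw [e] at this
      exact this

theorem twoRun_prob {μ : Measure (ℤ → Fin 4)} (hμ : IsColoringLaw μ) (i j : ℕ) :
    μ.real (TwoRun i j) = wp μ (cw 0 (List.replicate i 1 ++ List.replicate j 2)) := by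
  rw [twoRun_eq, wp_real hμ, cw_eq_map, wp_klein hμ]

/-- The main result at the level of measures. -/
theorem main {μ ν : Measure (ℤ → Fin 4)} (hμ : IsColoringLaw μ) (hν : IsColoringLaw ν)
    (h : ∀ i j : ℕ, (Odd j ∨ (j = 0 ∧ Odd i)) → μ (TwoRun i j) = ν (TwoRun i j)) : μ = ν := by
  have hp := hμ.prob
  have hp' := hν.prob
  have key := agree_all (wlaw_of_law hμ) (wlaw_of_law hν) (wp_klein hμ) (wp_klein hν)
    (fun i j hij => by
      rw [← twoRun_prob hμ, ← twoRun_prob hν, measureReal_def, measureReal_def, h i j hij])
  apply ext_win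
  intro a w
  rw [win_of_law hμ, win_of_law hν]
  unfold q
  rw [key w.length w le_rfl]

theorem main_parity {μ ν : Measure (ℤ → Fin 4)} (hμ : IsColoringLaw μ) (hν : IsColoringLaw ν)
    (n : ℕ) (h : ∀ w : List (Fin 4), w.length = n → wordProb μ w = wordProb ν w)
    (w : List (Fin 4)) (hw : w.length = n + 1) :
    wordProb μ w + (-1) ^ n * wordProb μ w.reverse =
      wordProb ν w + (-1) ^ n * wordProb ν w.reverse := by
  simp only [wordProb_eq] at h ⊢
  exact agree_parity (wlaw_of_law hμ) (wlaw_of_law hν) (wp_klein hμ) (wp_klein hν) n h w hw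

end Pool.Agent.W439.TR
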