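import Pool.Agent.W439.TR.Base

set_option autoImplicit false

namespace Pool.Agent.W439.TR

open Pool.Agent.H588R3.FC List

variable {d : List (Fin 4) → ℝ} {n : ℕ}

theorem perm_zero (R : Rel d n) {s s' : List (Fin 4)} (h : s.Perm s') :
    ∀ u v : List (Fin 4), (∀ t ∈ s, t ≠ 0) → u.length + s.length + v.length = n →
      d (cw 0 (u ++ s ++ v)) = 0 → d (cw 0 (u ++ s' ++ v)) = 0 := by
  induction h with
  | nil => intro u v _ _ h; exact h
  | @cons x l l' _ ih =>
    intro u v h0 hn h
    have h1 := ih (u ++ [x]) v (fun t ht => h0 t (List.mem_cons_of_mem _ ht))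
      (by simp only [List.length_append, List.length_cons, List.length_nil] at hn ⊢; omega)
      (by simpa [List.append_assoc] using h)
    simpa [List.append_assoc] using h1
  | @swap x y l =>
    intro u v h0 hn h
    -- `y :: x :: l` to `x :: y :: l`
    by_cases hxy : x = y
    · subst hxy; exact h
    · have e1 : u ++ (y :: x :: l) ++ v = u ++ y :: x :: (l ++ v) := by simp
      have e2 : u ++ (x :: y :: l) ++ v = u ++ x :: y :: (l ++ v) := by simp
      rw [e1] at h
      rw [e2, swap R u (l ++ v) x y (by simp only [List.length_append, List.length_cons] at hn ⊢; omega)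
        (h0 x (by simp)) (h0 y (by simp)) hxy, h, neg_zero]
  | @trans l₁ l₂ l₃ h12 _ ih1 ih2 =>
    intro u v h0 hn h
    exact ih2 u v (fun t ht => h0 t (h12.mem_iff.2 ht)) (by rw [← h12.length_eq]; exact hn)
      (ih1 u v h0 hn h)

theorem perm_zero' (R : Rel d n) {s s' : List (Fin 4)} (h : s.Perm s') (h0 : ∀ t ∈ s, t ≠ 0)
    (hn : s.length = n) (hd : d (cw 0 s) = 0) : d (cw 0 s') = 0 := by
  have := perm_zero R h [] [] h0 (by simpa using hn) (by simpa using hd)
  simpa using this

/-- the two-run values -/
def g (d : List (Fin 4) → ℝ) (a b : ℕ) : ℝ := d (cw 0 (List.replicate a 1 ++ List.replicate b 2))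

theorem vanish (R : Rel d n) (h : ∀ a b, a + b = n → g d a b = 0) :
    ∀ c : ℕ, ∀ s : List (Fin 4), s.length = n → (∀ t ∈ s, t ≠ 0) → s.count 3 = c →
      d (cw 0 s) = 0 := by
  intro c
  induction c with
  | zero =>
    intro s hn h0 hc
    have hp : (List.replicate (s.count 1) (1 : Fin 4) ++ List.replicate (s.count 2) 2).Perm s := by
      rw [List.perm_iff_count]
      intro x
      have hz : s.count 0 = 0 := List.count_eq_zero.2 (fun hm => h0 0 hm rfl)
      rw [List.count_append, List.count_replicate, List.count_replicate]
      fin_cases x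
      · simp [hz]
      · simp
      · simp
      · simp [hc]
    have hl : (List.replicate (s.count 1) (1 : Fin 4) ++ List.replicate (s.count 2) 2).length = n := by
      rw [hp.length_eq, hn]
    apply perm_zero' R hp _ hl
    · have := h (s.count 1) (s.count 2) (by simpa using hl)
      exact this
    · intro t ht
      exact h0 t (hp.mem_iff.1 ht)
  | succ c ih =>
    intro s hn h0 hc
    have hm : (3 : Fin 4) ∈ s := by
      by_contra hm
      rw [List.count_eq_zero.2 hm] at hc
      omega
    have hp : (s.erase 3 ++ [3]).Perm s :=
      (List.perm_append_singleton _ _).trans (List.perm_cons_erase hm).symm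
    have hlen : (s.erase 3).length + 1 = n := by
      have := hp.length_eq
      simp only [List.length_append, List.length_cons, List.length_nil] at this
      omega
    have hcnt : (s.erase 3).count 3 = c := by
      rw [List.count_erase_self, hc]
      rfl
    have h0' : ∀ t ∈ s.erase 3, t ≠ 0 := fun t ht => h0 t (List.mem_of_mem_erase ht)
    have hr := right R (s.erase 3) hlen
    have aux : ∀ j : Fin 4, j ≠ 0 → j ≠ 3 → d (cw 0 (s.erase 3 ++ [j])) = 0 := by
      intro j hj hj3
      apply ih
      · simp only [List.length_append, List.length_cons, List.length_nil]; omega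
      · intro t ht
        rcases List.mem_append.1 ht with ht | ht
        · exact h0' t ht
        · rw [List.mem_singleton] at ht; rw [ht]; exact hj
      · rw [List.count_append, hcnt, List.count_singleton]
        simp [hj3]
    rw [aux 1 (by decide) (by decide), aux 2 (by decide) (by decide)] at hr
    have h3 : d (cw 0 (s.erase 3 ++ [3])) = 0 := by linarith
    apply perm_zero' R hp _ (by simp only [List.length_append, List.length_cons, List.length_nil]; omega) h3
    intro t ht
    exact h0 t (hp.mem_iff.1 ht)

theorem vanish_steps (R : Rel d n) (h : ∀ a b, a + b = n → g d a b = 0) (s : List (Fin 4))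
    (hn : s.length = n) : d (cw 0 s) = 0 := by
  by_cases h0 : (0 : Fin 4) ∈ s
  · exact R.improper _ (cw_improper_zero s h0 0)
  · exact vanish R h _ s hn (fun t ht hc => h0 (hc ▸ ht)) rfl

/-- every proper nonempty word is a colour word -/
theorem exists_steps (w : List (Fin 4)) : w ≠ [] → ∃ a s, w = cw a s := by
  induction w with
  | nil => intro h; exact absurd rfl h
  | cons a w ih =>
    intro _
    by_cases hw : w = []
    · exact ⟨a, [], by rw [hw]; rfl⟩
    · obtain ⟨b, s, hb⟩ := ih hw
      refine ⟨a, x4 a b :: s, ?_⟩
      simp only [cw]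
      rw [← x4_assoc, x4_self, zero_x4, hb]

theorem vanish_all (R : Rel d n) (h : ∀ a b, a + b = n → g d a b = 0) (w : List (Fin 4))
    (hn : w.length = n + 1) : d w = 0 := by
  obtain ⟨a, s, rfl⟩ := exists_steps w (by rintro rfl; simp at hn)
  rw [cw_length] at hn
  rw [R.klein a s (by omega)]
  exact vanish_steps R h s (by omega)

/-- moving a letter across a run -/
theorem move (R : Rel d n) (i j : Fin 4) (hi : i ≠ 0) (hj : j ≠ 0) (hij : i ≠ j) (k : ℕ) :
    ∀ u v : List (Fin 4), u.length + k + 1 + v.length = n →
      d (cw 0 (u ++ j :: (List.replicate k i ++ v))) =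
        (-1) ^ k * d (cw 0 (u ++ (List.replicate k i ++ j :: v))) := by
  induction k with
  | zero => intro u v _; simp
  | succ k ih =>
    intro u v hn
    have e1 : u ++ j :: (List.replicate (k + 1) i ++ v) = u ++ j :: i :: (List.replicate k i ++ v) := by
      simp [List.replicate_succ]
    rw [e1, swap R u (List.replicate k i ++ v) j i
      (by simp only [List.length_append, List.length_replicate]; omega) hj hi (Ne.symm hij)]
    have e2 : u ++ i :: j :: (List.replicate k i ++ v) = (u ++ [i]) ++ j :: (List.replicate k i ++ v) := by
      simp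
    have e3 : u ++ (List.replicate (k + 1) i ++ j :: v) = (u ++ [i]) ++ (List.replicate k i ++ j :: v) := by
      simp [List.replicate_succ]
    rw [e2, ih (u ++ [i]) v (by simp only [List.length_append, List.length_cons, List.length_nil]; omega), e3]
    ring

theorem star (R : Rel d n) (a b : ℕ) (hn : a + b + 1 = n) :
    g d (a + 1) b * (1 - (-1) ^ a) + g d a (b + 1) * ((-1) ^ a - (-1) ^ (a + b)) = 0 := by
  set s : List (Fin 4) := List.replicate a 1 ++ List.replicate b 2 with hs
  have hsl : s.length + 1 = n := by rw [hs]; simp; omega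
  have hL := left R s hsl
  have hR := right R s hsl
  have e1 : d (cw 0 (1 :: s)) = g d (a + 1) b := by
    unfold g; rw [hs]; simp [List.replicate_succ]
  have e2 : d (cw 0 (2 :: s)) = (-1) ^ a * g d a (b + 1) := by
    have := move R 1 2 (by decide) (by decide) (by decide) a [] (List.replicate b 2)
      (by simp; omega)
    simp only [List.nil_append] at this
    rw [hs, this]
    unfold g
    simp [List.replicate_succ]
  have e3 : d (cw 0 (3 :: s)) = (-1) ^ (a + b) * d (cw 0 (s ++ [3])) := by
    have h1 := move R 1 3 (by decide) (by decide) (by decide) a [] (List.replicate b 2)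
      (by simp; omega)
    have h2 := move R 2 3 (by decide) (by decide) (by decide) b (List.replicate a 1) []
      (by simp; omega)
    simp only [List.nil_append, List.append_nil] at h1 h2
    rw [hs, h1, h2, pow_add, List.append_assoc]
    ring
  have e4 : d (cw 0 (s ++ [2])) = g d a (b + 1) := by
    unfold g
    rw [hs, List.append_assoc]
    congr 3
    exact (List.replicate_succ' (n := b) (a := (2 : Fin 4))).symm
  have e5 : d (cw 0 (s ++ [1])) = (-1) ^ b * g d (a + 1) b := by
    have h1 := move R 2 1 (by decide) (by decide) (by decide) b (List.replicate a 1) []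
      (by simp; omega)
    simp only [List.append_nil] at h1
    have e : List.replicate a (1 : Fin 4) ++ 1 :: List.replicate b 2
        = List.replicate (a + 1) 1 ++ List.replicate b 2 := by
      rw [List.replicate_succ', List.append_assoc]; rfl
    rw [e] at h1
    unfold g
    rw [h1, hs, ← mul_assoc, ← pow_add, ← two_mul, pow_mul, List.append_assoc]
    norm_num
  rw [e1, e2, e3] at hL
  rw [e4, e5] at hR
  have h3 : d (cw 0 (s ++ [3])) = - ((-1) ^ b * g d (a + 1) b) - g d a (b + 1) := by linarith
  rw [h3] at hL
  have hb : ((-1 : ℝ) ^ b) * (-1) ^ b = 1 := by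
    rw [← pow_add, ← two_mul, pow_mul]; norm_num
  rw [pow_add] at hL ⊢
  linear_combination hL + (-1) ^ a * g d (a + 1) b * hb

end Pool.Agent.W439.TR
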