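import Pool.Agent.W439.TR.Vanish

set_option autoImplicit false

namespace Pool.Agent.W439.TR

open Pool.Agent.H588R3.FC List

variable {d : List (Fin 4) → ℝ} {n : ℕ}

theorem g_zero (R : Rel d 0) : g d 0 0 = 0 := by
  have h := R.mid [] [] rfl
  have hk : ∀ a : Fin 4, d ([] ++ [a]) = d (cw 0 []) := by
    intro a
    exact R.klein a [] rfl
  rw [Finset.sum_congr rfl (fun a _ => hk a)] at h
  simp only [Finset.sum_const, Finset.card_univ, Fintype.card_fin, nsmul_eq_mul] at h
  unfold g
  simp only [List.replicate_zero, List.append_nil]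
  have : (4 : ℝ) * d (cw 0 []) = 0 := by exact_mod_cast h
  linarith

theorem g_even_even (R : Rel d n) (a b : ℕ) (hn : a + b = n) (ha : Even a) (hb : Even b) :
    g d a b = 0 := by
  rcases Nat.eq_zero_or_pos a with h0 | h0
  · subst h0
    rcases Nat.eq_zero_or_pos b with h1 | h1
    · subst h1
      subst hn
      exact g_zero R
    · obtain ⟨b', rfl⟩ : ∃ b', b = b' + 1 := ⟨b - 1, by omega⟩
      have hs := star R 0 b' (by omega)
      have hodd : Odd b' := by
        rcases hb with ⟨k, hk⟩
        exact ⟨k - 1, by omega⟩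
      simp only [zero_add, pow_zero, sub_self, mul_zero, hodd.neg_one_pow] at hs
      linarith
  · obtain ⟨a', rfl⟩ : ∃ a', a = a' + 1 := ⟨a - 1, by omega⟩
    have hs := star R a' b (by omega)
    have hodd : Odd a' := by
      rcases ha with ⟨k, hk⟩
      exact ⟨k - 1, by omega⟩
    have hodd' : Odd (a' + b) := hodd.add_even hb
    rw [hodd.neg_one_pow, hodd'.neg_one_pow] at hs
    linarith

theorem g_odd_even (R : Rel d n) (a b : ℕ) (hn : a + (b + 1) = n) (ha : Odd a) (hb : Odd b) :
    g d a (b + 1) = g d (a + 1) b := by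
  have hs := star R a b (by omega)
  have he : Even (a + b) := ha.add_odd hb
  rw [ha.neg_one_pow, he.neg_one_pow] at hs
  linarith

theorem sparse (R : Rel d n) (h : ∀ a b, a + b = n → (Odd b ∨ (b = 0 ∧ Odd a)) → g d a b = 0) :
    ∀ a b, a + b = n → g d a b = 0 := by
  intro a b hn
  rcases Nat.even_or_odd b with hb | hb
  · rcases Nat.even_or_odd a with ha | ha
    · exact g_even_even R a b hn ha hb
    · rcases Nat.eq_zero_or_pos b with h0 | h0
      · exact h a b hn (Or.inr ⟨h0, ha⟩)
      · obtain ⟨b', rfl⟩ : ∃ b', b = b' + 1 := ⟨b - 1, by omega⟩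
        have hodd : Odd b' := by
          rcases hb with ⟨k, hk⟩
          exact ⟨k - 1, by omega⟩
        rw [g_odd_even R a b' hn ha hodd]
        exact h _ _ (by omega) (Or.inl hodd)
  · exact h a b hn (Or.inl hb)

/-- The reflected relations. -/
theorem rel_reverse (R : Rel d n) (σ : ℝ) : Rel (fun w => d w + σ * d w.reverse) n := by
  refine ⟨?_, ?_, ?_⟩
  · intro w hw
    have : ¬ Proper w.reverse := by
      intro h
      apply hw
      unfold Proper at *
      rw [List.isChain_reverse] at h
      exact h.imp (fun a b hab => Ne.symm hab)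
    simp only [R.improper w hw, R.improper _ this, mul_zero, add_zero]
  · intro x y hxy
    simp only [List.reverse_append, List.reverse_cons, List.append_assoc]
    rw [Finset.sum_add_distrib, R.mid x y hxy, ← Finset.mul_sum, zero_add]
    have := R.mid y.reverse x.reverse (by simp; omega)
    have e : ∀ a : Fin 4, y.reverse ++ ([a] ++ x.reverse) = y.reverse ++ a :: x.reverse := by
      intro a; simp
    simp only [e, this, mul_zero]
  · intro a s hs
    have h1 : d (cw a s).reverse = d (cw 0 s.reverse) := by
      rw [cw_reverse]; exact R.klein _ _ (by simpa using hs)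
    have h2 : d (cw 0 s).reverse = d (cw 0 s.reverse) := by
      rw [cw_reverse]; exact R.klein _ _ (by simpa using hs)
    simp only [h1, h2, R.klein a s hs]

theorem move_block (R : Rel d n) (a b : ℕ) :
    ∀ v : List (Fin 4), a + b + v.length = n →
    d (cw 0 (List.replicate b 2 ++ (List.replicate a 1 ++ v))) =
      (-1) ^ (a * b) * d (cw 0 (List.replicate a 1 ++ (List.replicate b 2 ++ v))) := by
  induction b with
  | zero => intro v _; simp
  | succ b ih =>
    intro v hn
    have e1 : List.replicate (b + 1) (2 : Fin 4) ++ (List.replicate a 1 ++ v)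
        = List.replicate b 2 ++ 2 :: (List.replicate a 1 ++ v) := by
      rw [List.replicate_succ', List.append_assoc]; rfl
    rw [e1, move R 1 2 (by decide) (by decide) (by decide) a (List.replicate b 2) v
      (by simp; omega)]
    rw [ih (2 :: v) (by simp; omega)]
    have e2 : List.replicate b (2 : Fin 4) ++ 2 :: v = List.replicate (b + 1) 2 ++ v := by
      rw [List.replicate_succ', List.append_assoc]; rfl
    rw [e2, ← mul_assoc, ← pow_add]
    congr 2
    ring

theorem g_reverse (R : Rel d n) (a b : ℕ) (hn : a + b = n) (σ : ℝ) :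
    g (fun w => d w + σ * d w.reverse) a b = g d a b * (1 + σ * (-1) ^ (a * b)) := by
  unfold g
  have h : d (cw 0 (List.replicate a 1 ++ List.replicate b 2)).reverse =
      (-1) ^ (a * b) * d (cw 0 (List.replicate a 1 ++ List.replicate b 2)) := by
    rw [cw_reverse, R.klein _ _ (by simp; omega), List.reverse_append, List.reverse_replicate,
      List.reverse_replicate]
    have := move_block R a b [] (by simpa using hn)
    simpa using this
  simp only [h]
  ring

theorem parity (R : Rel d n) (w : List (Fin 4)) (hw : w.length = n + 1) :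
    d w + (-1) ^ n * d w.reverse = 0 := by
  have R' := rel_reverse R ((-1) ^ n)
  refine vanish_all R' ?_ w hw
  intro a b hab
  rw [g_reverse R a b hab]
  rcases Nat.even_or_odd a with ha | ha <;> rcases Nat.even_or_odd b with hb | hb
  · rw [g_even_even R a b hab ha hb, zero_mul]
  · have h1 : Odd n := hab ▸ ha.add_odd hb
    rw [h1.neg_one_pow, (ha.mul_right b).neg_one_pow]
    ring
  · have h1 : Odd n := hab ▸ ha.add_even hb
    rw [h1.neg_one_pow, (hb.mul_left a).neg_one_pow]
    ring
  · have h1 : Even n := hab ▸ ha.add_odd hb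
    rw [h1.neg_one_pow, (ha.mul hb).neg_one_pow]
    ring

/-- Klein invariance of a word law. -/
def KI (P : List (Fin 4) → ℝ) : Prop := ∀ (a : Fin 4) (w : List (Fin 4)), P (w.map (x4 a)) = P w

variable {P P' : List (Fin 4) → ℝ}

theorem rel_of_agree (hP : WLaw P) (hP' : WLaw P') (hK : KI P) (hK' : KI P')
    (h : ∀ w : List (Fin 4), w.length ≤ n → P w = P' w) : Rel (fun w => P w - P' w) n := by
  refine ⟨?_, ?_, ?_⟩
  · intro w hw
    simp only [hP.improper w hw, hP'.improper w hw, sub_self]
  · intro x y hxy
    rw [Finset.sum_sub_distrib, hP.mid, hP'.mid, h x (by omega), h y (by omega), sub_self]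
  · intro a s _
    show P (cw a s) - P' (cw a s) = P (cw 0 s) - P' (cw 0 s)
    rw [cw_eq_map a s, hK, hK']

theorem agree_all (hP : WLaw P) (hP' : WLaw P') (hK : KI P) (hK' : KI P')
    (h : ∀ i j : ℕ, (Odd j ∨ (j = 0 ∧ Odd i)) →
      P (cw 0 (List.replicate i 1 ++ List.replicate j 2)) =
        P' (cw 0 (List.replicate i 1 ++ List.replicate j 2))) :
    ∀ n : ℕ, ∀ w : List (Fin 4), w.length ≤ n → P w = P' w := by
  intro n
  induction n with
  | zero =>
    intro w hw
    have : w = [] := List.length_eq_zero_iff.1 (by omega)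
    rw [this, hP.nil, hP'.nil]
  | succ n ih =>
    intro w hw
    rcases Nat.lt_or_ge w.length (n + 1) with h1 | h1
    · exact ih w (by omega)
    · have R := rel_of_agree hP hP' hK hK' ih
      have := vanish_all R (sparse R (fun a b _ hab => by
        show P (cw 0 (List.replicate a 1 ++ List.replicate b 2)) -
          P' (cw 0 (List.replicate a 1 ++ List.replicate b 2)) = 0
        rw [h a b hab, sub_self])) w (by omega)
      have h3 : P w - P' w = 0 := this
      linarith

theorem agree_le (hP : WLaw P) (hP' : WLaw P') (n : ℕ)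
    (h : ∀ w : List (Fin 4), w.length = n → P w = P' w) :
    ∀ k : ℕ, ∀ w : List (Fin 4), w.length + k = n → P w = P' w := by
  intro k
  induction k with
  | zero => intro w hw; exact h w (by omega)
  | succ k ih =>
    intro w hw
    rw [← hP.right w, ← hP'.right w]
    refine Finset.sum_congr rfl (fun a _ => ih _ ?_)
    simp only [List.length_append, List.length_cons, List.length_nil]
    omega

theorem agree_parity (hP : WLaw P) (hP' : WLaw P') (hK : KI P) (hK' : KI P') (n : ℕ)
    (h : ∀ w : List (Fin 4), w.length = n → P w = P' w) (w : List (Fin 4))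
    (hw : w.length = n + 1) :
    P w + (-1) ^ n * P w.reverse = P' w + (-1) ^ n * P' w.reverse := by
  have h' : ∀ w : List (Fin 4), w.length ≤ n → P w = P' w := fun v hv =>
    agree_le hP hP' n h (n - v.length) v (by omega)
  have h2 : (P w - P' w) + (-1) ^ n * (P w.reverse - P' w.reverse) = 0 :=
    parity (rel_of_agree hP hP' hK hK' h') w hw
  linear_combination h2

end Pool.Agent.W439.TR
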